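import Pool.Agent.helper10.OM.SpecG

/-! Project OM (MP_bf63dc_nt), row GSM. -/

set_option autoImplicit false

namespace Pool.Agent.OM

open Finset Real Pool.Agent.AT Pool.Agent.helper85.FC

theorem GSM (h1 : GEO_stmt) (h2 : GAR_stmt) : GSM_stmt := by
  classical
  intro W H D ρ hWH hW hD hρ hWD α β hnot
  let t : ℕ × ℕ → ℝ := fun r => (r.1 : ℝ) * α + r.2 * β
  have hcard : #{r ∈ W | Near (t r) ρ} ≤ 1 := by
    rw [Finset.card_le_one]
    intro r hr r' hr'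
    rw [mem_filter] at hr hr'
    by_contra hne
    exact hnot (h2 H r.1 r.2 r'.1 r'.2 (hWH r hr.1).1 (hWH r hr.1).2 (hWH r' hr'.1).1
      (hWH r' hr'.1).2 (hW r hr.1 r' hr'.1 hne) α β ρ hρ.le hr.2 hr'.2)
  rcases Nat.eq_zero_or_pos (#W) with h0 | h0
  · rw [Finset.card_eq_zero] at h0
    rw [h0, Finset.sum_empty]
    norm_num
  have hW0 : (0 : ℝ) < (#W : ℝ) := by exact_mod_cast h0
  have hterm : ∀ r ∈ W, FD D (t r) ≤ (if Near (t r) ρ then 1 else 0) + 1 / (#W : ℝ) := by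
    intro r _
    obtain ⟨-, h4, h5⟩ := h1 D (t r)
    split_ifs with h
    · have : 0 ≤ 1 / (#W : ℝ) := by positivity
      linarith
    · rw [zero_add]
      exact (h5 ρ hρ hD h).trans (one_div_le_one_div_of_le hW0 hWD)
  have hsum : ∑ r ∈ W, ((if Near (t r) ρ then 1 else 0) + 1 / (#W : ℝ)) =
      (#{r ∈ W | Near (t r) ρ} : ℝ) + #W * (1 / (#W : ℝ)) := by
    rw [sum_add_distrib, sum_const, nsmul_eq_mul, sum_boole]
  have hc : ((#W : ℕ) : ℝ) * (1 / (#W : ℝ)) = 1 := by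
    rw [mul_one_div, div_self hW0.ne']
  have hc' : ((#{r ∈ W | Near (t r) ρ} : ℕ) : ℝ) ≤ 1 := by exact_mod_cast hcard
  calc ∑ r ∈ W, FD D ((r.1 : ℝ) * α + r.2 * β)
      ≤ ∑ r ∈ W, ((if Near (t r) ρ then 1 else 0) + 1 / (#W : ℝ)) := sum_le_sum hterm
    _ ≤ 2 := by rw [hsum]; linarith

end Pool.Agent.OM
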